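import Mathlib

/-!
Cocyclic matrices: the sums over quadruples of rows are invariant under a transitive group of
row permutations.
-/

namespace Pool.Agent.H1.GS

variable {I : Type} [Fintype I]

/-- the generalised inner product of four rows -/
def T (H : I → I → ℤ) (a b c d : I) : ℤ := ∑ k, H a k * H b k * H c k * H d k

theorem sq_one {x : ℤ} (h : x = 1 ∨ x = -1) : x * x = 1 := by
  rcases h with rfl | rfl <;> norm_num

theorem transitive (H : I → I → ℤ) {G : Type} [Group G] (ψ : G → G → ℤ) (σ τ : I ≃ G)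
    (r s : I → ℤ) (h1 : ∀ g h : G, ψ g h = 1 ∨ ψ g h = -1)
    (h2 : ∀ g h k : G, ψ g h * ψ (g * h) k = ψ g (h * k) * ψ h k)
    (h3 : ∀ i, r i = 1 ∨ r i = -1) (h4 : ∀ j, s j = 1 ∨ s j = -1)
    (h5 : ∀ i j, H i j = r i * s j * ψ (σ i) (τ j)) (i i' : I) :
    ∃ π : Equiv.Perm I, π i = i' ∧
      ∀ a b c d, T H (π a) (π b) (π c) (π d) ^ 2 = T H a b c d ^ 2 := by
  let h : G := (σ i)⁻¹ * σ i'
  let π : Equiv.Perm I := (σ.trans (Equiv.mulRight h)).trans σ.symm
  let ρ : Equiv.Perm I := (τ.trans (Equiv.mulLeft h)).trans τ.symm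
  have hπ : ∀ a, σ (π a) = σ a * h := fun a => by simp [π]
  have hρ : ∀ k, τ (ρ k) = h * τ k := fun k => by simp [ρ]
  let u : I → ℤ := fun a => r (π a) * ψ (σ a) h * r a
  let v : I → ℤ := fun k => s k * ψ h (τ k) * s (ρ k)
  have hu : ∀ a, u a * u a = 1 := by
    intro a
    have e1 := sq_one (h3 (π a))
    have e2 := sq_one (h3 a)
    have e3 := sq_one (h1 (σ a) h)
    calc u a * u a = (r (π a) * r (π a)) * (ψ (σ a) h * ψ (σ a) h) * (r a * r a) := by
          simp only [u]; ring
      _ = 1 := by rw [e1, e2, e3]; norm_num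
  have hv : ∀ a, v a * v a = 1 := by
    intro k
    have e1 := sq_one (h4 k)
    have e2 := sq_one (h4 (ρ k))
    have e3 := sq_one (h1 h (τ k))
    calc v k * v k = (s k * s k) * (ψ h (τ k) * ψ h (τ k)) * (s (ρ k) * s (ρ k)) := by
          simp only [v]; ring
      _ = 1 := by rw [e1, e2, e3]; norm_num
  have key : ∀ a k, H (π a) k = u a * v k * H a (ρ k) := by
    intro a k
    have e0 := h2 (σ a) h (τ k)
    have e1 := sq_one (h1 (σ a) h)
    have e2 := sq_one (h3 a)
    have e3 := sq_one (h4 (ρ k))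
    have e4 : ψ (σ a * h) (τ k) = ψ (σ a) h * (ψ (σ a) (h * τ k) * ψ h (τ k)) := by
      calc ψ (σ a * h) (τ k) = (ψ (σ a) h * ψ (σ a) h) * ψ (σ a * h) (τ k) := by
            rw [e1, one_mul]
        _ = ψ (σ a) h * (ψ (σ a) h * ψ (σ a * h) (τ k)) := by ring
        _ = _ := by rw [e0]
    rw [h5, h5, hπ, hρ, e4]
    calc r (π a) * s k * (ψ (σ a) h * (ψ (σ a) (h * τ k) * ψ h (τ k)))
        = r (π a) * s k * (ψ (σ a) h * (ψ (σ a) (h * τ k) * ψ h (τ k))) * 1 * 1 := by ring
      _ = r (π a) * s k * (ψ (σ a) h * (ψ (σ a) (h * τ k) * ψ h (τ k))) * (r a * r a)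
          * (s (ρ k) * s (ρ k)) := by rw [e2, e3]
      _ = u a * v k * (r a * s (ρ k) * ψ (σ a) (h * τ k)) := by
          simp only [u, v]; ring
  refine ⟨π, ?_, ?_⟩
  · simp [π, h]
  · intro a b c d
    have e1 : T H (π a) (π b) (π c) (π d) = u a * u b * u c * u d * T H a b c d := by
      unfold T
      rw [Finset.mul_sum]
      rw [← Equiv.sum_comp ρ (fun k => u a * u b * u c * u d * (H a k * H b k * H c k * H d k))]
      refine Finset.sum_congr rfl fun k _ => ?_
      rw [key, key, key, key]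
      have e := hv k
      calc u a * v k * H a (ρ k) * (u b * v k * H b (ρ k)) * (u c * v k * H c (ρ k))
            * (u d * v k * H d (ρ k))
          = (v k * v k) * (v k * v k) * (u a * u b * u c * u d *
            (H a (ρ k) * H b (ρ k) * H c (ρ k) * H d (ρ k))) := by ring
        _ = _ := by rw [e]; ring
    rw [e1]
    calc (u a * u b * u c * u d * T H a b c d) ^ 2
        = (u a * u a) * (u b * u b) * (u c * u c) * (u d * u d) * T H a b c d ^ 2 := by ring
      _ = _ := by rw [hu, hu, hu, hu]; ring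

end Pool.Agent.H1.GS
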