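import Mathlib
import Pool.Agent.H1.GS.Cocyc

/-!
An explicit Goethals–Seidel matrix of order 36.
-/

namespace Pool.Agent.H1.GS

def sgn (b : Bool) : ℤ := cond b (-1) 1

theorem sgn_mul (p q : Bool) : sgn p * sgn q = sgn (p ^^ q) := by
  cases p <;> cases q <;> simp [sgn]

def pop : ℕ → ℕ → ℕ
  | 0, _ => 0
  | n + 1, x => x % 2 + pop n (x / 2)

theorem sum_sgn (n : ℕ) : ∀ x : ℕ,
    ∑ k ∈ Finset.range n, sgn (x.testBit k) = n - 2 * (pop n x : ℤ) := by
  induction n with
  | zero => intro x; simp [pop]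
  | succ n ih =>
    intro x
    rw [Finset.sum_range_succ']
    have h1 : ∀ k, x.testBit (k + 1) = (x / 2).testBit k := fun k => Nat.testBit_succ x k
    simp only [h1]
    rw [ih (x / 2)]
    have h0 : x.testBit 0 = decide (x % 2 = 1) := Nat.testBit_zero x
    rw [h0]
    rcases Nat.mod_two_eq_zero_or_one x with h | h
    · simp only [pop, h, sgn]
      push_cast
      simp
      ring
    · simp only [pop, h, sgn]
      push_cast
      simp
      ring

def idx (p : Fin 4 × Fin 9) : ℕ := 9 * p.1.1 + p.2.1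

theorem idx_lt (p : Fin 4 × Fin 9) : idx p < 36 := by
  have h1 := p.1.2
  have h2 := p.2.2
  unfold idx
  omega

theorem idx_inj {p q : Fin 4 × Fin 9} (h : idx p = idx q) : p = q := by
  have h1 := p.1.2
  have h2 := p.2.2
  have h3 := q.1.2
  have h4 := q.2.2
  unfold idx at h
  ext <;> omega

theorem sum_idx (f : ℕ → ℤ) :
    ∑ k : Fin 4 × Fin 9, f (idx k) = ∑ k ∈ Finset.range 36, f k := by
  rw [Fintype.sum_prod_type]
  simp only [Fin.sum_univ_succ, Finset.sum_range_succ, idx]
  simp
  ring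

def codes : List ℕ := [67894664561, 68306939619, 34153600966, 17143909261, 42864715035,
  55791964727, 62255720558, 65420489948, 67069852600, 11114716462, 5624445079, 37171786571,
  18652915109, 9393523154, 39056543977, 19528360820, 44056856250, 22095367773, 49966268853,
  25038971354, 12497203437, 40563644790, 20326649019, 44545607517, 56610915246, 62621941975,
  31291441515, 19095575545, 38203272700, 7760107262, 15355800191, 30696240447, 61250583455,
  53845089743, 39069249511, 9602512883]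

def code (i : ℕ) : ℕ := codes.getD i 0

def chk3 (x : ℕ) : List ℕ → Bool
  | [] => true
  | c :: L => !(Nat.beq (pop 36 (x ^^^ c) % 28) 4) && chk3 x L

def chk2 (x : ℕ) : List ℕ → Bool
  | [] => true
  | b :: L => chk3 (x ^^^ b) L && chk2 x L

def chk1 (x : ℕ) : List ℕ → Bool
  | [] => true
  | a :: L => chk2 (x ^^^ a) L && chk1 x L

theorem chk3_spec (x : ℕ) : ∀ (L : List ℕ), chk3 x L = true → ∀ i, i < L.length →
    pop 36 (x ^^^ L.getD i 0) % 28 ≠ 4 := by
  intro L
  induction L with
  | nil => intro _ i hi; simp at hi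
  | cons c L ih =>
    intro h i hi
    simp only [chk3, Bool.and_eq_true, Bool.not_eq_true'] at h
    cases i with
    | zero =>
      rw [List.getD_cons_zero]
      intro hcon
      have := h.1
      rw [hcon] at this
      exact absurd this (by decide)
    | succ i =>
      rw [List.getD_cons_succ]
      exact ih h.2 i (by simpa using hi)

theorem chk2_spec (x : ℕ) : ∀ (L : List ℕ), chk2 x L = true → ∀ i j, i < j → j < L.length →
    pop 36 (x ^^^ L.getD i 0 ^^^ L.getD j 0) % 28 ≠ 4 := by
  intro L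
  induction L with
  | nil => intro _ i j _ hi; simp at hi
  | cons c L ih =>
    intro h i j hij hj
    simp only [chk2, Bool.and_eq_true] at h
    obtain ⟨j, rfl⟩ : ∃ j', j = j' + 1 := ⟨j - 1, by omega⟩
    have hj' : j < L.length := by simpa using hj
    cases i with
    | zero =>
      rw [List.getD_cons_zero, List.getD_cons_succ]
      exact chk3_spec _ L h.1 j hj'
    | succ i =>
      rw [List.getD_cons_succ, List.getD_cons_succ]
      exact ih h.2 i j (by omega) hj'

theorem chk1_spec (x : ℕ) : ∀ (L : List ℕ), chk1 x L = true → ∀ i j k, i < j → j < k →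
    k < L.length → pop 36 (x ^^^ L.getD i 0 ^^^ L.getD j 0 ^^^ L.getD k 0) % 28 ≠ 4 := by
  intro L
  induction L with
  | nil => intro _ i j k _ _ hi; simp at hi
  | cons c L ih =>
    intro h i j k hij hjk hk
    simp only [chk1, Bool.and_eq_true] at h
    obtain ⟨j, rfl⟩ : ∃ j', j = j' + 1 := ⟨j - 1, by omega⟩
    obtain ⟨k, rfl⟩ : ∃ k', k = k' + 1 := ⟨k - 1, by omega⟩
    have hk' : k < L.length := by simpa using hk
    cases i with
    | zero =>
      rw [List.getD_cons_zero, List.getD_cons_succ, List.getD_cons_succ]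
      exact chk2_spec _ L h.1 j k (by omega) hk'
    | succ i =>
      rw [List.getD_cons_succ, List.getD_cons_succ, List.getD_cons_succ]
      exact ih h.2 i j k (by omega) (by omega) hk'

theorem chk_true : chk1 (code 18) codes = true := by decide +kernel

theorem no_special (i j k : ℕ) (hi : i < 36) (hj : j < 36) (hk : k < 36) (h1 : i ≠ j)
    (h2 : j ≠ k) (h3 : i ≠ k) :
    pop 36 (code 18 ^^^ code i ^^^ code j ^^^ code k) % 28 ≠ 4 := by
  have H := chk1_spec (code 18) codes chk_true
  have hl : codes.length = 36 := rfl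
  rw [hl] at H
  rcases lt_or_gt_of_ne h1 with h1 | h1 <;> rcases lt_or_gt_of_ne h2 with h2 | h2 <;>
    rcases lt_or_gt_of_ne h3 with h3 | h3
  · exact H i j k h1 h2 hk
  · omega
  · have := H i k j h3 h2 hj
    rw [Nat.xor_assoc (code 18 ^^^ code i) (code j) (code k), Nat.xor_comm (code j) (code k),
      ← Nat.xor_assoc]
    exact this
  · have := H k i j h3 h1 hj
    have e : code 18 ^^^ code i ^^^ code j ^^^ code k
        = code 18 ^^^ code k ^^^ code i ^^^ code j := by
      simp only [Nat.xor_comm, Nat.xor_left_comm]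
    rw [e]
    exact this
  · have := H j i k h1 h3 hk
    have e : code 18 ^^^ code i ^^^ code j ^^^ code k
        = code 18 ^^^ code j ^^^ code i ^^^ code k := by
      simp only [Nat.xor_comm, Nat.xor_left_comm]
    rw [e]
    exact this
  · have := H j k i h2 h3 hi
    have e : code 18 ^^^ code i ^^^ code j ^^^ code k
        = code 18 ^^^ code j ^^^ code k ^^^ code i := by
      simp only [Nat.xor_comm, Nat.xor_left_comm]
    rw [e]
    exact this
  · omega
  · have := H k j i h2 h1 hi
    have e : code 18 ^^^ code i ^^^ code j ^^^ code k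
        = code 18 ^^^ code k ^^^ code j ^^^ code i := by
      simp only [Nat.xor_comm, Nat.xor_left_comm]
    rw [e]
    exact this

theorem T_eq (cd : ℕ → ℕ) (H : Fin 4 × Fin 9 → Fin 4 × Fin 9 → ℤ)
    (hH : ∀ p k, H p k = sgn ((cd (idx p)).testBit (idx k))) (a b c d : Fin 4 × Fin 9) :
    T H a b c d
      = 36 - 2 * (pop 36 (cd (idx a) ^^^ cd (idx b) ^^^ cd (idx c) ^^^ cd (idx d)) : ℤ) := by
  have h1 : ∀ k, H a k * H b k * H c k * H d k
      = sgn ((cd (idx a) ^^^ cd (idx b) ^^^ cd (idx c) ^^^ cd (idx d)).testBit (idx k)) := by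
    intro k
    rw [hH, hH, hH, hH, sgn_mul, sgn_mul, sgn_mul, Nat.testBit_xor, Nat.testBit_xor,
      Nat.testBit_xor]
  have h2 : T H a b c d = ∑ k, sgn ((cd (idx a) ^^^ cd (idx b) ^^^ cd (idx c)
      ^^^ cd (idx d)).testBit (idx k)) := Finset.sum_congr rfl (fun k _ => h1 k)
  have h3 := sum_idx (fun i => sgn ((cd (idx a) ^^^ cd (idx b) ^^^ cd (idx c)
      ^^^ cd (idx d)).testBit i))
  have h4 := sum_sgn 36 (cd (idx a) ^^^ cd (idx b) ^^^ cd (idx c) ^^^ cd (idx d))
  exact h2.trans (h3.trans h4)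

attribute [local irreducible] code pop in
/-- A cocyclic matrix cannot have these entries. -/
theorem not_cocyclic (H : Fin 4 × Fin 9 → Fin 4 × Fin 9 → ℤ)
    (hH : ∀ p k, H p k = sgn ((code (idx p)).testBit (idx k)))
    {G : Type} [Group G] (ψ : G → G → ℤ) (σ τ : (Fin 4 × Fin 9) ≃ G)
    (r s : Fin 4 × Fin 9 → ℤ) (h1 : ∀ g h : G, ψ g h = 1 ∨ ψ g h = -1)
    (h2 : ∀ g h k : G, ψ g h * ψ (g * h) k = ψ g (h * k) * ψ h k)
    (h3 : ∀ i, r i = 1 ∨ r i = -1) (h4 : ∀ j, s j = 1 ∨ s j = -1)
    (h5 : ∀ i j, H i j = r i * s j * ψ (σ i) (τ j)) : False := by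
  obtain ⟨π, hπ, hT⟩ := transitive H ψ σ τ r s h1 h2 h3 h4 h5 (0, 0) (2, 0)
  have e := hT (0, 0) (0, 3) (1, 5) (1, 8)
  rw [hπ, T_eq code H hH, T_eq code H hH] at e
  have e18 : idx (2, 0) = 18 := rfl
  rw [e18] at e
  have hb : pop 36 (code (idx (0, 0)) ^^^ code (idx (0, 3)) ^^^ code (idx (1, 5))
      ^^^ code (idx (1, 8))) % 28 = 4 := by decide +kernel
  have hb' : pop 36 (code (idx (0, 0)) ^^^ code (idx (0, 3)) ^^^ code (idx (1, 5))
      ^^^ code (idx (1, 8))) ≤ 36 := by decide +kernel
  have hne : ∀ p q : Fin 4 × Fin 9, p ≠ q → idx (π p) ≠ idx (π q) := fun p q hpq h =>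
    hpq (π.injective (idx_inj h))
  have hs := no_special (idx (π (0, 3))) (idx (π (1, 5))) (idx (π (1, 8))) (idx_lt _) (idx_lt _)
    (idx_lt _) (hne _ _ (by decide)) (hne _ _ (by decide)) (hne _ _ (by decide))
  generalize pop 36 (code (idx (0, 0)) ^^^ code (idx (0, 3)) ^^^ code (idx (1, 5))
      ^^^ code (idx (1, 8))) = y at e hb hb'
  generalize pop 36 (code 18 ^^^ code (idx (π (0, 3))) ^^^ code (idx (π (1, 5)))
      ^^^ code (idx (π (1, 8)))) = x at e hs
  have hy : y = 4 ∨ y = 32 := by omega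
  have e' : (36 - 2 * (x : ℤ)) ^ 2 = 28 ^ 2 := by
    rw [e]
    rcases hy with rfl | rfl <;> norm_num
  have e'' : (36 - 2 * (x : ℤ) = 28) ∨ (36 - 2 * (x : ℤ) = -28) := sq_eq_sq_iff_eq_or_eq_neg.mp e'
  apply hs
  rcases e'' with e'' | e''
  · have : x = 4 := by omega
    rw [this]
  · have : x = 32 := by omega
    rw [this]

end Pool.Agent.H1.GS
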